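import Mathlib
import Pool.Agent.Sowing.UpThm
import Pool.Agent.Sowing.TinyThm
import Pool.Agent.Sowing.NimberThm

set_option autoImplicit false

namespace Pool.Agent.Results.MP_58e104_co.AllValues

open Pool.Agent.Sowing Pool.Agent.Sowing.Game

/-- Explicit Sowing positions with values `n·↑`, tiny-`n` and `*n` for all `n ≥ 1`: each of the
three sets `A`, `B`, `C` of the question is the set of all positive integers. -/
theorem result :
    (∀ n : ℕ, 1 ≤ n → HasValue (upPos n) (nUp n)) ∧
    (∀ n : ℕ, 1 ≤ n → HasValue (tinyPos n) (tiny n)) ∧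
    (∀ n : ℕ, 1 ≤ n → HasValue (nimPos n) (nimber n)) :=
  ⟨fun n _ => upPos_value n, fun _ hn => tinyPos_value hn, fun n hn => nimPos_value n hn⟩

end Pool.Agent.Results.MP_58e104_co.AllValues
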